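import Pool.Agent.Run7.h860.Nk.Fin

/-!
# Vojta's inequality on the line with a reduced arithmetic discriminant

Problem `MP_6f1c57_nt`, question Q1, for the curve `C = ℙ¹` over any number field, all `D`, `S`, `ε` and
`ν = r`. The known inequality (Wirsing, Vojta) has `d_a(P)`, for `ℙ¹` equal to `(2 d - 2) h + O(1)`, in
place of the discriminant `d(P)`; here the contributions of the pairs of conjugates which are close to
the same point of `D` at places of `S` are subtracted. This theorem of helper860 was first handed in for
`MP_71c16a_nt.ConjugatePairs`.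

`k` any number field, `X = ℙ¹`, `D` any finite set of points of `ℙ¹` over the algebraic closure of `k`,
`S` any finite set of finite places of `k` (the archimedean places always count as elements of `S`).
A point `x ∈ ℙ¹`, other than the point at infinity, with residue field `L = k(x)` is a generator `x` of a
finite extension `L` of `k`; its conjugates are the `σ(x)`, `σ : L → k̄` over `k`.  `K_X = -2 A`,
`h = h_A`, everything is normalised relative to `k`.

Vojta's conjecture says `∑_{v ∈ S} λ_{D,v}(x) - 2 h(x) ≤ ε h(x) + d_k(x) + O(1)` for the points of degree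
`d ≤ r`, where `d_k(x)` is the logarithmic discriminant of `k(x)`.  The theorems of Wirsing (1971)
and Vojta (1992) have the arithmetic discriminant `d_a(x) = (2 d - 2) h(x) + O(1)` in place of `d_k(x)`.
The difference `d_a(x) - d_k(x)` is made up of the contributions
`d⁻¹ ∑_{z ≠ w} - log dist_v(z, w)` of the pairs of conjugates of `x` which are close to each other.  We
prove Vojta's inequality with the contributions subtracted which come from the pairs of conjugates
close to the same point of `D` at a place of `S`:

`∑_{v ∈ S} λ_{D,v}(x) - 2 h(x) ≤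
  ε h(x) + ((2 d - 2) h(x) - ∑_{v ∈ S} d⁻¹ ∑_{z ≠ w} ∑_{a ∈ D} min (λ_{a,v}(z), λ_{a,v}(w))) + O(1)`.

(Two conjugates at the distances `e^{-λ}`, `e^{-μ}` of `a` are at distance at most `2 e^{-min(λ, μ)}`, so
that the right side is, up to `O(1)`, at least the one of the conjecture.)

Proof.  Let `f` be the minimal polynomial of `x`, in a `k`-space `U` of polynomials of degree at most
`d`, `dim U = t ≥ 2`.  At each place of `S` choose a basis of the dual space of `U` from the Taylor
coefficients at the points of `D`, as small as possible at `f`.  For suitable `t - 1` conjugates of `x`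
the minors of the values of a basis of `U` at them are `ρ` times the coordinates of `f`, with `ρ ≠ 0`.  At
a place of `S` the dual bases, weighted by the values at `f`, are polynomials whose Taylor coefficients
are not larger than those of `f`, so that `ρ` is small when conjugates are close to the same point
of `D`; the product formula for the norm of `ρ` and the subspace theorem over `k` (in the starting tree)
in the space `U` give the inequality outside finitely many proper subspaces of `U`, where one uses
induction.
-/

set_option autoImplicit false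

open NumberField IsDedekindDomain

namespace Pool.Agent.Results.MP_6f1c57_nt.ConjugatePairs

variable {k : Type} [Field k] [NumberField k]

/-- The Weil function of the point `a = (a₁ : a₂)` of `ℙ¹` at `z`, with respect to the absolute value
`g` of the algebraic closure of `k`: minus the logarithm of the distance of `z` and `a`, up to a bounded
function. -/
noncomputable def weil (g : AlgebraicClosure k → ℝ) (a : AlgebraicClosure k × AlgebraicClosure k)
    (z : AlgebraicClosure k) : ℝ :=
  Real.log (max 1 (g z) / g (a.1 - a.2 * z))

/-- `λ_{D,v}(x)`: the average over the conjugates of `x` of the sum of the Weil functions of the points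
of `D`; here `g` extends the absolute value of `v`. -/
noncomputable def prox (g : AlgebraicClosure k → ℝ)
    (D : Finset (AlgebraicClosure k × AlgebraicClosure k)) {L : Type} [Field L] [NumberField L]
    [Algebra k L] (x : L) : ℝ :=
  (∑ σ : L →ₐ[k] AlgebraicClosure k, ∑ a ∈ D, weil g a (σ x)) / Module.finrank k L

open Classical in
/-- `d⁻¹ ∑_{z ≠ w} ∑_{a ∈ D} min (λ_{a,v}(z), λ_{a,v}(w))`, the sum over the ordered pairs of different
conjugates `z = σ(x)`, `w = τ(x)`. -/
noncomputable def cross (g : AlgebraicClosure k → ℝ)
    (D : Finset (AlgebraicClosure k × AlgebraicClosure k)) {L : Type} [Field L] [NumberField L]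
    [Algebra k L] (x : L) : ℝ :=
  (∑ σ : L →ₐ[k] AlgebraicClosure k, ∑ τ ∈ Finset.univ.erase σ,
    ∑ a ∈ D, min (weil g a (σ x)) (weil g a (τ x))) / Module.finrank k L

/-- The logarithmic height of `x`, normalised relative to `k`. -/
noncomputable def height (k : Type) [Field k] [NumberField k] {L : Type} [Field L] [NumberField L]
    [Algebra k L] (x : L) : ℝ :=
  Height.logHeight₁ x / Module.finrank k L

theorem result (k : Type) [Field k] [NumberField k]
    -- the points of `D`, in homogeneous coordinates
    (D : Finset (AlgebraicClosure k × AlgebraicClosure k)) (hD0 : ∀ a ∈ D, a ≠ (0, 0))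
    (hD : ∀ a ∈ D, ∀ b ∈ D, a ≠ b → a.1 * b.2 ≠ a.2 * b.1)
    -- the places, extended to the algebraic closure
    (ψ : InfinitePlace k → AlgebraicClosure k →+* ℂ)
    (hψ : ∀ w, InfinitePlace.mk ((ψ w).comp (algebraMap k (AlgebraicClosure k))) = w)
    (S : Finset (HeightOneSpectrum (𝓞 k)))
    (F : HeightOneSpectrum (𝓞 k) → AbsoluteValue (AlgebraicClosure k) ℝ)
    (hF : ∀ v ∈ S, ∀ y : k, F v (algebraMap k (AlgebraicClosure k) y) = FinitePlace.mk v y)
    (r : ℕ) (ε : ℝ) (hε : 0 < ε) :
    ∃ C : ℝ, ∀ (L : Type) [Field L] [NumberField L] [Algebra k L] (x : L),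
      IntermediateField.adjoin k {x} = ⊤ → Module.finrank k L ≤ r →
      (∀ a ∈ D, ∀ σ : L →ₐ[k] AlgebraicClosure k, a.1 ≠ a.2 * σ x) →
      (∑ w : InfinitePlace k, (w.mult : ℝ) * prox (fun z => ‖ψ w z‖) D x +
          ∑ v ∈ S, prox (F v) D x) - 2 * height k x ≤
        ε * height k x +
        ((2 * Module.finrank k L - 2) * height k x -
          (∑ w : InfinitePlace k, (w.mult : ℝ) * cross (fun z => ‖ψ w z‖) D x +
            ∑ v ∈ S, cross (F v) D x)) + C := by
  classical
  rcases D.eq_empty_or_nonempty with rfl | hne
  · refine ⟨0, ?_⟩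
    intro L _ _ _ x hx _ _
    have hd : (0 : ℝ) < Module.finrank k L := by exact_mod_cast Module.finrank_pos
    have hd1 : (1 : ℝ) ≤ Module.finrank k L := by exact_mod_cast Module.finrank_pos
    have hh : 0 ≤ height k x := div_nonneg (Height.zero_le_logHeight₁ x) hd.le
    simp only [prox, cross, Finset.sum_empty, Finset.sum_const_zero, zero_div, mul_zero,
      add_zero, zero_sub, sub_zero]
    nlinarith
  · set FP : Run7.h860.Nk.Plc k → AbsoluteValue (AlgebraicClosure k) ℝ := fun v =>
      match v with
      | Sum.inl w => (NormedField.toAbsoluteValue ℂ).comp (ψ w).injective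
      | Sum.inr v => F v with hFP
    have hmain : ∀ d : ℕ, ∃ C : ℝ, 0 ≤ C ∧ (0 < d →
        ∀ (L : Type) [Field L] [NumberField L] [Algebra k L] (x : L),
        IntermediateField.adjoin k {x} = ⊤ → Module.finrank k L = d →
        (∀ a ∈ D, ∀ σ : L →ₐ[k] AlgebraicClosure k, a.1 ≠ a.2 * σ x) →
        ∑ v ∈ (Finset.univ : Finset (InfinitePlace k)).disjSum S,
          Pool.Agent.W180.OP.wt v * Run7.h860.Nk.pairSum (FP v) D x ≤
          (2 + ε / d) * d * Height.logHeight₁ x + C) := by
      intro d
      rcases Nat.eq_zero_or_pos d with hd | hd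
      · exact ⟨0, le_rfl, fun h => absurd hd h.ne'⟩
      · have hd' : (0 : ℝ) < d := by exact_mod_cast hd
        obtain ⟨C, hC⟩ := Run7.h860.Nk.main S ψ hψ F hF D hD0 hD hne d hd (ε / d)
          (by positivity) FP (fun _ _ => rfl) (fun _ => rfl)
        refine ⟨max C 0, le_max_right _ _, fun _ L _ _ _ x h1 h2 h3 => ?_⟩
        exact (hC L x h1 h2 h3).trans (add_le_add le_rfl (le_max_left _ _))
    choose C hC0 hC using hmain
    refine ⟨∑ d ∈ Finset.range (r + 1), C d, ?_⟩
    intro L _ _ _ x hx hr hoff
    have hpos : 0 < Module.finrank k L := Module.finrank_pos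
    have hd : (1 : ℝ) ≤ Module.finrank k L := by exact_mod_cast hpos
    have hd0 : (0 : ℝ) < (Module.finrank k L : ℝ) := by linarith
    have hCd : C (Module.finrank k L) ≤ ∑ d ∈ Finset.range (r + 1), C d :=
      Finset.single_le_sum (fun d _ => hC0 d) (Finset.mem_range.2 (by omega))
    have hC00 : 0 ≤ ∑ d ∈ Finset.range (r + 1), C d := Finset.sum_nonneg fun d _ => hC0 d
    have h4 := hC (Module.finrank k L) hpos L x hx rfl hoff
    have hsplit : ∀ v, prox (FP v) D x + cross (FP v) D x =
        Run7.h860.Nk.pairSum (FP v) D x / Module.finrank k L := by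
      intro v
      unfold prox cross Run7.h860.Nk.pairSum
      rw [← add_div, ← Finset.sum_add_distrib]
      congr 1
      refine Finset.sum_congr rfl fun σ _ => ?_
      rw [← Finset.add_sum_erase Finset.univ _ (Finset.mem_univ σ)]
      congr 1
      exact Finset.sum_congr rfl fun a _ => (min_self _).symm
    have h6 : (∑ w : InfinitePlace k, (w.mult : ℝ) * prox (fun z => ‖ψ w z‖) D x +
          ∑ v ∈ S, prox (F v) D x) + (∑ w : InfinitePlace k, (w.mult : ℝ) *
            cross (fun z => ‖ψ w z‖) D x + ∑ v ∈ S, cross (F v) D x) =
        (∑ v ∈ (Finset.univ : Finset (InfinitePlace k)).disjSum S,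
          Pool.Agent.W180.OP.wt v * Run7.h860.Nk.pairSum (FP v) D x) / Module.finrank k L := by
      rw [Finset.sum_disjSum, add_div, Finset.sum_div, Finset.sum_div]
      have e1 : ∀ w : InfinitePlace k, Pool.Agent.W180.OP.wt (Sum.inl w : Run7.h860.Nk.Plc k) *
          Run7.h860.Nk.pairSum (FP (Sum.inl w)) D x / Module.finrank k L =
          (w.mult : ℝ) * prox (fun z => ‖ψ w z‖) D x +
            (w.mult : ℝ) * cross (fun z => ‖ψ w z‖) D x := by
        intro w
        have h9 := hsplit (Sum.inl w)
        rw [mul_div_assoc]
        refine (congrArg (fun t : ℝ => (w.mult : ℝ) * t) h9.symm).trans ?_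
        exact mul_add _ _ _
      have e2 : ∀ v : HeightOneSpectrum (𝓞 k),
          Pool.Agent.W180.OP.wt (Sum.inr v : Run7.h860.Nk.Plc k) *
          Run7.h860.Nk.pairSum (FP (Sum.inr v)) D x / Module.finrank k L =
          prox (F v) D x + cross (F v) D x := by
        intro v
        have h9 := hsplit (Sum.inr v)
        rw [mul_div_assoc]
        exact (one_mul _).trans h9.symm
      simp only [e1, e2, Finset.sum_add_distrib]
      ring
    have h7 : (∑ v ∈ (Finset.univ : Finset (InfinitePlace k)).disjSum S,
          Pool.Agent.W180.OP.wt v * Run7.h860.Nk.pairSum (FP v) D x) / Module.finrank k L ≤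
        (2 * Module.finrank k L + ε) * height k x + ∑ d ∈ Finset.range (r + 1), C d := by
      rw [div_le_iff₀ hd0]
      refine h4.trans ?_
      have h8 : ((2 * Module.finrank k L + ε) * height k x + ∑ d ∈ Finset.range (r + 1), C d) *
          Module.finrank k L = (2 + ε / Module.finrank k L) * Module.finrank k L *
            Height.logHeight₁ x + (∑ d ∈ Finset.range (r + 1), C d) * Module.finrank k L := by
        unfold height
        field_simp
      rw [h8]
      nlinarith
    linarith

end Pool.Agent.Results.MP_6f1c57_nt.ConjugatePairs
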