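import Mathlib
import Pool.Agent.Run7.h742.SZ.Cu

/-! # The height inequality with proximity function for all points, over all number fields, of all
curves above the values of rational functions at almost all integral points of affine space

Let `C` be a smooth projective curve over a number field `K` with a finite map `t : C → ℙ¹` of degree
`N`, and let `a_1, …, a_q` be distinct rational numbers, `F_l` the reduced fibre of `t` over `a_l` and
`𝒟 = ∑ F_l`. If `t` is unramified outside the `F_l` (by Belyi's theorem every curve has such maps, for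
`q = 3`, and every reduced divisor is contained in `𝒟` for some such map) then
`(deg K_C) / N = q - 2 - (deg 𝒟) / N`. Let `A` be the ring of the functions on `C` with poles only over
`∞`: a Dedekind domain, finite over `K[t]`, and let `y_{l 0} = t - a_l, y_{l 1}, …` be generators of the
radical of the ideal `(t - a_l)`, the ideal of `F_l`. The points `P` of `C` (not over `∞`) over a number
field `L` containing `K` are the homomorphisms `φ : A → L` over `K`, and
`λ_v(P) = ∑_l max(0, - log max_i |y_{l i}(P)|_v)` is a Weil function of `𝒟` at `v`.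

Let `ϱ = F / G` be a rational function over `ℚ` on affine `n`-space, `F`, `G` forms of degree `D` in
`x_0, …, x_n`, and let `P_i = 0` be distinct irreducible hypersurfaces, other than the hyperplane at
infinity `x_0 = 0`, on which `ϱ` takes one of the values `a_l` (and is defined), of weight
`ω = ∑ min (deg P_i, 2)`. We consider the points `P` of `C` over any number field `L` with
`t(P) = ϱ(x)`, `x` an integral point of `𝔸^n`. -/

set_option autoImplicit false

namespace Pool.Agent.Results.MP_6f1c57_nt.CurvesOverIntegralPoints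

open MvPolynomial NumberField IsDedekindDomain

/-- `max |x_j|` -/
def H {n : ℕ} (x : Fin (n + 1) → ℤ) : ℕ := Finset.univ.sup fun j => (x j).natAbs

/-- the rational points of the affine space `𝔸^n = ℙ^n ∖ {x 0 = 0}` with denominator in `M` and
with `H x ≤ B`: the point `(x 1 / x 0, …, x n / x 0)` is given by its coprime integer coordinates
with `x 0 > 0`, and `x 0` is its denominator. `M = {1}`: the integral points -/
def Points (n : ℕ) (M : Set ℕ) (B : ℕ) : Set (Fin (n + 1) → ℤ) :=
  {x | Finset.univ.gcd x = 1 ∧ 0 < x 0 ∧ (x 0).toNat ∈ M ∧ H x ≤ B}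

/-- the proportion of the points of `Q` among the points with denominators in `M` of height at most
`B` is at most a negative power of `B`, uniformly in the set `M` -/
def PowerSaving (n : ℕ) (Q : Set (Fin (n + 1) → ℤ)) : Prop :=
  ∃ δ : ℝ, 0 < δ ∧ ∃ C : ℝ, 0 < C ∧ ∀ B : ℕ, 1 ≤ B → ∀ M : Set ℕ,
    ((Points n M B ∩ Q).ncard : ℝ) ≤ C * (B : ℝ) ^ (-δ) * ((Points n M B).ncard : ℝ)

/-- `F`, `G` are forms of degree `D`, so `F / G` is a rational function on `𝔸^n`; `P i = 0` are distinct
hypersurfaces of degree `k i`, irreducible over `ℚ`, none of which is the hyperplane `x 0 = 0`, on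
which `F / G` takes the value `a (j i)`: `P i` divides `F - a (j i) G` and does not divide `G` -/
structure IsFunction {n q r : ℕ} (D : ℕ) (F G : MvPolynomial (Fin (n + 1)) ℤ) (a : Fin q → ℚ)
    (P : Fin r → MvPolynomial (Fin (n + 1)) ℤ) (k : Fin r → ℕ) (j : Fin r → Fin q) : Prop where
  hF : F.IsHomogeneous D
  hG : G.IsHomogeneous D
  hP : ∀ i, (P i).IsHomogeneous (k i)
  irreducible : ∀ i, Irreducible (map (Int.castRingHom ℚ) (P i))
  distinct : ∀ i l, i ≠ l →
    ¬ Associated (map (Int.castRingHom ℚ) (P i)) (map (Int.castRingHom ℚ) (P l))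
  affine : ∀ i, ¬ Associated (map (Int.castRingHom ℚ) (P i)) (X 0)
  dvd : ∀ i, map (Int.castRingHom ℚ) (P i) ∣
    map (Int.castRingHom ℚ) F - C (a (j i)) * map (Int.castRingHom ℚ) G
  not_dvd : ∀ i, ¬ map (Int.castRingHom ℚ) (P i) ∣ map (Int.castRingHom ℚ) G

/-- the weight of the hypersurfaces: one of degree `1` counts for `1`, one of degree at least `2`
counts for `2` -/
def weight {r : ℕ} (k : Fin r → ℕ) : ℝ := ∑ i, ((min (k i) 2 : ℕ) : ℝ)

/-- the value `F (x) / G (x)` -/
noncomputable def value {n : ℕ} (F G : MvPolynomial (Fin (n + 1)) ℤ) (x : Fin (n + 1) → ℤ) : ℚ :=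
  ((eval x F : ℤ) : ℚ) / ((eval x G : ℤ) : ℚ)

/-- The function `t` on the curve with the ring of functions `A`. -/
noncomputable def coord (K A : Type) [Field K] [CommRing A] [Algebra (Polynomial K) A] : A :=
  algebraMap (Polynomial K) A Polynomial.X

/-- `y l 0 = t - a l, y l 1, …` are elements of the radical of the ideal `(t - a l)`, for example
generators -/
def IsFibres (K : Type) [Field K] [NumberField K] {A : Type} [CommRing A] [Algebra K A]
    [Algebra (Polynomial K) A] {q : ℕ} (a : Fin q → ℚ) {u : Fin q → ℕ}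
    (y : ∀ l, Fin (u l + 1) → A) : Prop :=
  (∀ l, y l 0 = coord K A - algebraMap K A (algebraMap ℚ K (a l))) ∧
  ∀ l i, y l i ∈ (Ideal.span {coord K A - algebraMap K A (algebraMap ℚ K (a l))}).radical

/-- `max (0, - log max_i c_i)` -/
noncomputable def minusLog {s : ℕ} (c : Fin (s + 1) → ℝ) : ℝ := max 0 (-Real.log (⨆ i, c i))

open Classical in
/-- The proximity function `m_S(𝒟, P)`: the sum over the infinite places `w` (with
`mult w = [L_w : ℝ]`) and the primes `v` above the primes of `S` of the local heights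
`∑_l max (0, - log max_i |y_{l i}(P)|)`, divided by `[L : ℚ]`. The absolute values are normalised
so that the product formula holds: `|b|_v = N(v) ^ (- v(b))`. -/
noncomputable def proximity {K A : Type} [Field K] [CommRing A] [Algebra K A] (S : Finset ℕ)
    {q : ℕ} {u : Fin q → ℕ} (y : ∀ l, Fin (u l + 1) → A) {L : Type} [Field L] [NumberField L]
    [Algebra K L] (φ : A →ₐ[K] L) : ℝ :=
  ((∑ w : InfinitePlace L, (w.mult : ℝ) * ∑ l, minusLog (fun i => w (φ (y l i)))) +
    ∑ᶠ v : HeightOneSpectrum (𝓞 L), if ∃ p ∈ S, (p : 𝓞 L) ∈ v.asIdeal then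
      ∑ l, minusLog (fun i => FinitePlace.mk v (φ (y l i))) else 0) / Module.finrank ℚ L

/-- The (absolute) logarithmic discriminant `d(L) = log |disc L| / [L : ℚ]`. -/
noncomputable def logDisc (L : Type) [Field L] [NumberField L] : ℝ :=
  Real.log |(NumberField.discr L : ℝ)| / Module.finrank ℚ L

/-- `(deg 𝒟) / N = (∑_l dim (A / (y_{l 0}, y_{l 1}, …))) / N`, where `N` is the rank of `A` over
`K[t]` -/
noncomputable def divDegree (K : Type) [Field K] {A : Type} [CommRing A] [Algebra K A]
    [Algebra (Polynomial K) A] {q : ℕ} {u : Fin q → ℕ} (y : ∀ l, Fin (u l + 1) → A) : ℝ :=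
  (∑ l, (Module.finrank K (A ⧸ Ideal.span (Set.range (y l))) : ℝ)) /
    Module.finrank (Polynomial K) A

/-- the inequality
`m_S(𝒟, P) + θ h(x) ≤ (deg 𝒟 / N) h(t(P)) + d(L) + ∑_{p ∈ S} log p + c`,
`h(t(P))` the height of `t(P) = ϱ(x)`, `h(x) = log (H x)` -/
def FirstInequality (K : Type) [Field K] [NumberField K] {A : Type} [CommRing A] [Algebra K A]
    [Algebra (Polynomial K) A] {n q : ℕ} {u : Fin q → ℕ} (y : ∀ l, Fin (u l + 1) → A)
    (F G : MvPolynomial (Fin (n + 1)) ℤ) (θ c : ℝ) (x : Fin (n + 1) → ℤ)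
    (L : Type) [Field L] [NumberField L] [Algebra K L] (φ : A →ₐ[K] L) (S : Finset ℕ) : Prop :=
  proximity S y φ + θ * Real.log (H x) ≤
    divDegree K y * Height.logHeight₁ (value F G x) + logDisc L + ∑ p ∈ S, Real.log (p : ℝ) + c

/-- the inequality of the conjecture,
`m_S(𝒟, P) + (q - 2 - deg 𝒟 / N) h(t(P)) ≤ d(L) + ε h(t(P)) + ∑_{p ∈ S} log p + c`; here
`(q - 2 - deg 𝒟 / N) h(t(P))` is `h_{K_C}(P)` up to `ε h(t(P)) + O(1)` if `t` is unramified outside the
fibres over the `a_l` -/
def HeightInequality (K : Type) [Field K] [NumberField K] {A : Type} [CommRing A] [Algebra K A]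
    [Algebra (Polynomial K) A] {n q : ℕ} {u : Fin q → ℕ} (y : ∀ l, Fin (u l + 1) → A)
    (F G : MvPolynomial (Fin (n + 1)) ℤ) (ε c : ℝ) (x : Fin (n + 1) → ℤ)
    (L : Type) [Field L] [NumberField L] [Algebra K L] (φ : A →ₐ[K] L) (S : Finset ℕ) : Prop :=
  proximity S y φ + ((q : ℝ) - 2 - divDegree K y) * Height.logHeight₁ (value F G x) ≤
    logDisc L + ε * Height.logHeight₁ (value F G x) + ∑ p ∈ S, Real.log (p : ℝ) + c

/-- `P = φ` is a point of the curve over `L` with `t(P) = ϱ(x)` -/
def IsAbove (K : Type) [Field K] [NumberField K] {A : Type} [CommRing A] [Algebra K A]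
    [Algebra (Polynomial K) A] {n : ℕ} (F G : MvPolynomial (Fin (n + 1)) ℤ)
    (x : Fin (n + 1) → ℤ) {L : Type} [Field L] [NumberField L] [Algebra K L] (φ : A →ₐ[K] L) :
    Prop :=
  φ (coord K A) = algebraMap ℚ L (value F G x)

/-- the points `x` (off the poles of `ϱ`, with `ϱ(x) ≠ a_l`) such that the inequality `I` fails for
some point `P` of the curve over `ϱ(x)`, over some number field `L ⊇ K`, and some finite set `S` of
primes -/
def Failures (K : Type) [Field K] [NumberField K] (A : Type) [CommRing A] [Algebra K A]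
    [Algebra (Polynomial K) A] {n q : ℕ} (F G : MvPolynomial (Fin (n + 1)) ℤ) (a : Fin q → ℚ)
    (I : ∀ (_ : Fin (n + 1) → ℤ) (L : Type) [Field L] [NumberField L] [Algebra K L]
      (_ : A →ₐ[K] L) (_ : Finset ℕ), Prop) : Set (Fin (n + 1) → ℤ) :=
  {x | x 0 ≠ 0 ∧ eval x G ≠ 0 ∧ (∀ l, value F G x ≠ a l) ∧ ∃ (L : Type) (_ : Field L)
    (_ : NumberField L) (_ : Algebra K L) (φ : A →ₐ[K] L) (S : Finset ℕ), IsAbove K F G x φ ∧
      (∀ p ∈ S, p.Prime) ∧ ¬ I x L φ S}

open Classical in
lemma proximity_eq {K A : Type} [Field K] [CommRing A] [Algebra K A] (S : Finset ℕ) {q : ℕ}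
    {u : Fin q → ℕ} (y : ∀ j, Fin (u j + 1) → A) {L : Type} [Field L] [NumberField L]
    [Algebra K L] (φ : A →ₐ[K] L)
    (hf : ∀ j, {v : HeightOneSpectrum (𝓞 L) |
      Pool.Agent.W223.AC.lamF (y j) (φ : A →+* L) v ≠ 0}.Finite) :
    proximity S y φ = Pool.Agent.Y557.OE.prx S y (φ : A →+* L) / Module.finrank ℚ L := by
  unfold proximity Pool.Agent.Y557.OE.prx
  refine congrArg (fun t : ℝ => t / Module.finrank ℚ L) ?_
  rw [Finset.sum_add_distrib]
  congr 1
  · rw [Finset.sum_comm]
    refine Finset.sum_congr rfl fun w _ => ?_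
    rw [Finset.mul_sum]
    rfl
  · unfold Pool.Agent.W223.AC.mS
    rw [← finsum_sum_comm]
    · refine finsum_congr fun v => ?_
      split_ifs
      · rfl
      · rw [Finset.sum_const_zero]
    · intro j _
      refine (hf j).subset fun v hv => ?_
      rw [Function.mem_support] at hv
      intro h
      apply hv
      rw [h, ite_self]

section translate

variable {K : Type} [Field K] [NumberField K] {A : Type} [CommRing A] [IsDedekindDomain A]
  [Algebra K A] [Algebra (Polynomial K) A] [IsScalarTower K (Polynomial K) A]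
  [Module.Finite (Polynomial K) A] [FaithfulSMul (Polynomial K) A] {n q : ℕ} {u : Fin q → ℕ}
  {a : Fin q → ℚ} {y : ∀ l, Fin (u l + 1) → A} {F G : MvPolynomial (Fin (n + 1)) ℤ}

theorem fin_lam (hq : 1 ≤ q) (hy : IsFibres K a y) {x : Fin (n + 1) → ℤ}
    (hxa : ∀ l, value F G x ≠ a l) {L : Type} [Field L] [NumberField L] [Algebra K L]
    {φ : A →ₐ[K] L} (hφ : IsAbove K F G x φ) :
    ∀ l, {v : HeightOneSpectrum (𝓞 L) |
      Pool.Agent.W223.AC.lamF (y l) (φ : A →+* L) v ≠ 0}.Finite := by
  obtain ⟨C, -, h⟩ := Run7.h742.CU.curve hq F G a u y hy.1 hy.2 1 one_pos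
  exact (h x hxa L φ hφ).1

theorem first_iff (hq : 1 ≤ q) (hy : IsFibres K a y) {x : Fin (n + 1) → ℤ}
    (hxa : ∀ l, value F G x ≠ a l) {L : Type} [Field L] [NumberField L] [Algebra K L]
    {φ : A →ₐ[K] L} (hφ : IsAbove K F G x φ) (S : Finset ℕ) (θ c : ℝ)
    (h : Run7.h742.CU.Ineq1 K y F G θ c x φ S) : FirstInequality K y F G θ c x L φ S := by
  unfold FirstInequality
  rw [proximity_eq S y φ (fin_lam hq hy hxa hφ)]
  unfold logDisc
  have hd : (0 : ℝ) < Module.finrank ℚ L := by exact_mod_cast Module.finrank_pos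
  have h1 : Module.finrank ℚ L * (θ * Real.log (H x)) +
      Pool.Agent.Y557.OE.prx S y (φ : A →+* L) ≤
    Real.log |(discr L : ℝ)| + Module.finrank ℚ L *
      (divDegree K y * Height.logHeight₁ (value F G x) + ∑ p ∈ S, Real.log (p : ℝ) + c) := h
  have h2 := div_le_div_of_nonneg_right h1 hd.le
  rw [add_div, add_div, mul_div_cancel_left₀ _ hd.ne', mul_div_cancel_left₀ _ hd.ne'] at h2
  linarith

theorem height_iff (hq : 1 ≤ q) (hy : IsFibres K a y) {x : Fin (n + 1) → ℤ}
    (hxa : ∀ l, value F G x ≠ a l) {L : Type} [Field L] [NumberField L] [Algebra K L]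
    {φ : A →ₐ[K] L} (hφ : IsAbove K F G x φ) (S : Finset ℕ) (ε c : ℝ)
    (h : Run7.h742.CU.Ineq2 K y F G ε c x φ S) : HeightInequality K y F G ε c x L φ S := by
  unfold HeightInequality
  rw [proximity_eq S y φ (fin_lam hq hy hxa hφ)]
  unfold logDisc
  have hd : (0 : ℝ) < Module.finrank ℚ L := by exact_mod_cast Module.finrank_pos
  have h1 : Pool.Agent.Y557.OE.prx S y (φ : A →+* L) + Module.finrank ℚ L *
      (((q : ℝ) - 2 - divDegree K y) * Height.logHeight₁ (value F G x)) ≤
    Real.log |(discr L : ℝ)| + Module.finrank ℚ L *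
      (ε * Height.logHeight₁ (value F G x) + ∑ p ∈ S, Real.log (p : ℝ) + c) := h
  have h2 := div_le_div_of_nonneg_right h1 hd.le
  rw [add_div, add_div, mul_div_cancel_left₀ _ hd.ne', mul_div_cancel_left₀ _ hd.ne'] at h2
  linarith

end translate

/-- **The height inequality for points of curves above values at integral points.** Let `n ≥ 1`.
(1) The sets `Points n M B` are finite, and the number of the points of one denominator `d ≤ B` is
at least `c B ^ (n - δ)` for every `δ > 0`.
(2) Let `ϱ = F / G` be a rational function of degree `D` on `𝔸^n` and `a_1, …, a_q` rational numbers with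
hypersurfaces `ϱ = a_l` of weight `ω`, let `K` be a number field, `A` the ring of functions of a curve
over `K` with a finite map `t` to the line, and `y_{l i}` as above. For `θ < ω` and all `c` the
inequality `m_S(𝒟, P) + θ h(x) ≤ (deg 𝒟 / N) h(t(P)) + d(L) + ∑_{p ∈ S} log p + c` holds for ALL
number fields `L ⊇ K`, ALL points `P` over `L` with `t(P) = ϱ(x)` and ALL finite sets `S` of primes,
for all `x` (with `ϱ(x) ≠ a_l`) outside a set which contains a power-saving proportion of the points,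
uniformly in the set `M` of the denominators. If `ω > 0` and `ω ≥ (q - 2) D` the same is true for the
inequality `m_S(𝒟, P) + (q - 2 - deg 𝒟 / N) h(t(P)) ≤ d(L) + ε h(t(P)) + ∑_{p ∈ S} log p + c` of the
conjecture, for all `ε > 0` and all `c`.
(3) There is one set `E` of relative density zero among the points with denominators in `M`,
uniformly in `M`, such that for ALL rational functions `ϱ` and all `a_l`, ALL number fields `K`, ALL
curves and ALL maps `t` the same inequalities hold with a constant `c` depending on these data and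
`θ` (or `ε`), for all `x` outside `E` and ALL `L`, `P`, `S`. -/
theorem result : ∀ n : ℕ, 1 ≤ n →
    ((∀ (M : Set ℕ) (B : ℕ), (Points n M B).Finite) ∧
      (∀ δ : ℝ, 0 < δ → ∃ c : ℝ, 0 < c ∧ ∀ B d : ℕ, 1 ≤ d → d ≤ B →
        c * (B : ℝ) ^ ((n : ℝ) - δ) ≤ ((Points n {d} B).ncard : ℝ))) ∧
    (∀ (D q r : ℕ) (F G : MvPolynomial (Fin (n + 1)) ℤ) (a : Fin q → ℚ)
      (P : Fin r → MvPolynomial (Fin (n + 1)) ℤ) (k : Fin r → ℕ) (j : Fin r → Fin q),
      IsFunction D F G a P k j → 1 ≤ q →
      ∀ (K : Type) [Field K] [NumberField K] (A : Type) [CommRing A] [IsDedekindDomain A]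
        [Algebra K A] [Algebra (Polynomial K) A] [IsScalarTower K (Polynomial K) A]
        [Module.Finite (Polynomial K) A] [FaithfulSMul (Polynomial K) A] (u : Fin q → ℕ)
        (y : ∀ l, Fin (u l + 1) → A), IsFibres K a y →
        (∀ θ : ℝ, θ < weight k → ∀ c : ℝ, PowerSaving n (Failures K A F G a
          fun x L _ _ _ φ S => FirstInequality K y F G θ c x L φ S)) ∧
        (0 < weight k → ((q : ℝ) - 2) * D ≤ weight k → ∀ ε : ℝ, 0 < ε → ∀ c : ℝ,
          PowerSaving n (Failures K A F G a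
            fun x L _ _ _ φ S => HeightInequality K y F G ε c x L φ S))) ∧
    ∃ E : Set (Fin (n + 1) → ℤ),
      (∀ ε : ℝ, 0 < ε → ∃ B₀ : ℕ, ∀ B : ℕ, B₀ ≤ B → ∀ M : Set ℕ,
        ((Points n M B ∩ E).ncard : ℝ) ≤ ε * ((Points n M B).ncard : ℝ)) ∧
      ∀ (D q r : ℕ) (F G : MvPolynomial (Fin (n + 1)) ℤ) (a : Fin q → ℚ)
        (P : Fin r → MvPolynomial (Fin (n + 1)) ℤ) (k : Fin r → ℕ) (j : Fin r → Fin q),
        IsFunction D F G a P k j → 1 ≤ q →
        ∀ (K : Type) [Field K] [NumberField K] (A : Type) [CommRing A] [IsDedekindDomain A]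
          [Algebra K A] [Algebra (Polynomial K) A] [IsScalarTower K (Polynomial K) A]
          [Module.Finite (Polynomial K) A] [FaithfulSMul (Polynomial K) A] (u : Fin q → ℕ)
          (y : ∀ l, Fin (u l + 1) → A), IsFibres K a y →
          (∀ θ : ℝ, θ < weight k → ∃ c : ℝ, ∀ x : Fin (n + 1) → ℤ, x 0 ≠ 0 → x ∉ E →
            eval x G ≠ 0 → (∀ l, value F G x ≠ a l) →
            ∀ (L : Type) [Field L] [NumberField L] [Algebra K L] (φ : A →ₐ[K] L),
              IsAbove K F G x φ → ∀ S : Finset ℕ, (∀ p ∈ S, p.Prime) →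
                FirstInequality K y F G θ c x L φ S) ∧
          (0 < weight k → ((q : ℝ) - 2) * D ≤ weight k → ∀ ε : ℝ, 0 < ε → ∃ c : ℝ,
            ∀ x : Fin (n + 1) → ℤ, x 0 ≠ 0 → x ∉ E → eval x G ≠ 0 →
            (∀ l, value F G x ≠ a l) →
            ∀ (L : Type) [Field L] [NumberField L] [Algebra K L] (φ : A →ₐ[K] L),
              IsAbove K F G x φ → ∀ S : Finset ℕ, (∀ p ∈ S, p.Prime) →
                HeightInequality K y F G ε c x L φ S) := by
  intro n hn
  have hdata : ∀ (D q r : ℕ) (F G : MvPolynomial (Fin (n + 1)) ℤ) (a : Fin q → ℚ)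
      (P : Fin r → MvPolynomial (Fin (n + 1)) ℤ) (k : Fin r → ℕ) (j : Fin r → Fin q),
      IsFunction D F G a P k j → Run7.h742.CU.Data D F G a P k j :=
    fun D q r F G a P k j h => ⟨h.hF, h.hG, ⟨h.hP, h.irreducible, h.distinct, h.affine⟩,
      h.dvd, h.not_dvd⟩
  refine ⟨⟨fun M B => Run7.h742.VI.Pts_finite n M B, fun δ hδ => Run7.h742.VI.Pts_lower hn hδ⟩,
    fun D q r F G a P k j h hq K _ _ A _ _ _ _ _ _ _ u y hy =>
      ⟨fun θ hθ c => ?_, fun hω hqD ε hε c => ?_⟩, ?_⟩
  · refine (Run7.h742.CU.fail1_ps hn hq (hdata D q r F G a P k j h) (K := K) (y := y) hy hθ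
      c).mono ?_
    rintro x ⟨hx, hGx, hxa, L, _, _, _, φ, S, hφ, hS, hf⟩
    exact ⟨hx, hGx, hxa, L, _, _, _, φ, S, hφ, hS, fun h1 =>
      hf (first_iff hq hy hxa hφ S θ c h1)⟩
  · refine (Run7.h742.CU.fail2_ps hn hq (hdata D q r F G a P k j h) (K := K) (y := y) hy hω hqD
      hε c).mono ?_
    rintro x ⟨hx, hGx, hxa, L, _, _, _, φ, S, hφ, hS, hf⟩
    exact ⟨hx, hGx, hxa, L, _, _, _, φ, S, hφ, hS, fun h1 =>
      hf (height_iff hq hy hxa hφ S ε c h1)⟩
  · obtain ⟨E, hE, hall⟩ := Run7.h742.CU.univ_curve hn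
    refine ⟨E, hE, fun D q r F G a P k j h hq K _ _ A _ _ _ _ _ _ _ u y hy => ?_⟩
    obtain ⟨h1, h2⟩ := hall D q r F G a P k j (hdata D q r F G a P k j h) hq K A u y hy
    refine ⟨fun θ hθ => ?_, fun hω hqD ε hε => ?_⟩
    · obtain ⟨c, hc⟩ := h1 θ hθ
      exact ⟨c, fun x hx hxE hGx hxa L _ _ _ φ hφ S hS =>
        first_iff hq hy hxa hφ S θ c (hc x hx hxE hGx hxa L φ hφ S hS)⟩
    · obtain ⟨c, hc⟩ := h2 hω hqD ε hε
      exact ⟨c, fun x hx hxE hGx hxa L _ _ _ φ hφ S hS =>
        height_iff hq hy hxa hφ S ε c (hc x hx hxE hGx hxa L φ hφ S hS)⟩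

end Pool.Agent.Results.MP_6f1c57_nt.CurvesOverIntegralPoints
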