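import Pool.Agent.Run7.h128.BD.Prox

/-!
# A weak form of Vojta's inequality for pairs: points of bounded degree, proximity, discriminant

Problem `MP_6f1c57_nt`, question Q1: take for `X` a curve `C` (given by forms in some projective space) and
for `D` a hypersurface section such that `C ∖ D` is neither `ℙ¹`, `𝔸¹` nor `𝔾_m`, i.e. `K + D` has positive
degree (if `C` is smooth); the closed set `Z` is then finite, and `ν` is the degree bound `d`. This theorem
of helper128 was first handed in for `MP_71c16a_nt.ProximityAndDiscriminant`.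

Let `k` be a number field, `X ⊂ ℙ^n` an integral closed subvariety over `k` (the forms `F_i` generate its
prime ideal) and `D = X ∩ {T = 0}`, where `T` is a form of degree `δ ≥ 1` over `k`; its coefficients
are supposed to be integral, which is no restriction. No smoothness is needed, and `D` may be any
hypersurface section, of any number of components with any singularities. The complement `X ∖ D` is
supposed not to be `𝔾_m`-uniruled (`LogUniruled`): there is no nonconstant map from `𝔾_m`, over an
extension field, to `X ∖ D` through the generic point of `X`. This holds in particular if `X ∖ D` is of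
log general type.

Notation, as in the problem: `ht k x` is the height relative to `k` of the point `x` with coordinates in
the number field `L ⊇ k`, so that `h_D(x) = δ ht k x`; `logDisc k L = d_k(L)`; `prox k S δ T x` is the
proximity function `m_S(D, x) = ∑_{ν ∈ S} λ_D(x, ν)` for the local heights
`δ log max_a |x_a|_w - log |T(x)|_w` at the places `w` of `L` above the places in `S` and the infinite ones
(`below K w` is the place below `w` of the number field `K`, `k ⊆ K ⊆ L`, for example `K = k`; `S` is any
finite set of finite places of `K`).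

The coordinates of the points are written as sums of `s` products of elements of `L` and of `K`,

  `x_a = ∑_j λ_(j, a) u_(j, a)`, `λ_(j, a) ∈ L` integral, `u_(j, a) ∈ K`, and

`N_S(u) = outside S u = ∑_{w ∉ S} ∑_{u_(j,a) ≠ 0} log (max_i |u_i|_w / |u_(j,a)|_w)` measures how far the
`u_(j, a)` are from being proportional to `S`-units, `c_S(u, x) = cont k S u x ≥ 0` is the contribution
of the places outside of `S` to the difference of the heights of `u` and of `x`, that is, the common
factor of the `x_a`.

THEOREM. For every `s` there is ONE proper closed subset `Z = {H = 0}` of `X`, over `k`, such that for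
ALL number fields `K ⊇ k`, ALL finite sets `S` and all degrees `d` there is `c > 0` such that for all
number fields `L ⊇ K` with `[L : k] ≤ d`:

(1) all points `x ∈ X(L)` off `Z` and `D` and all `λ` and `u` as above satisfy

  `m_S(D, x) + c h(x) ≤ h_D(x) + h(λ) + N_S(u) + δ c_S(u, x) + 1`;

(2) `L` has a generator `θ`, an algebraic integer with `L = ℚ(θ)`, such that all points `x ∈ X(L)` off
`Z` and `D`, written as `x_a = ∑_j θ^(g(j, a)) u_(j, a)` with exponents `< d`, satisfy

  `m_S(D, x) + c h(x) ≤ h_D(x) + d_k(L) + N_S(u) + δ c_S(u, x) + 1`.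

As the powers of `θ` generate `L` over `K`, (2) with `s = d` and `g(j, a) = j` applies to all algebraic
points of degree at most `d`, with the coordinates `u_(j, a)` of the `x_a` with respect to this basis.

Vojta's inequality is `m_S(D, x) + (h_(K_X + D)(x) - ε h_A(x)) ≤ h_D(x) + d_k(x) + O(1)`. If `K_X + D` is
big, then the term in parentheses is, up to `O(1)` and outside of a proper closed subset, between two
positive multiples of `h`; here it is replaced by a small multiple of `h`, and there are the additional
terms `N_S(u) + δ c_S(u, x)`, which vanish if the `u_(j, a)` are `S`-units or `0` and the `x_a` have no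
common factor outside of `S`.

Proof. One has to bound `h(x)` by a multiple of `1 + h(λ) + N_S(u) + D_S`, where
`D_S = ∑_{w ∉ S} |log |T(x)|_w - δ log max |u|_w|`. The norm `v` of `T(x)` from `L` to `K` is a form in the
`u` with algebraic coefficients of small height, and `v / y^(δ [L : K] - 1)` is an almost unit, if `y` is
one of the `u`. If there is no bound, the relations between the almost units yield (as in
`HeightByDiscriminant`, MP_9b9442_nt) a rational curve through `x` in `X` on which the product of the
conjugates of `T`, hence also `T`, is a monomial. These curves, with `s (n + 1)` terms, lie in one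
hypersurface.
-/

set_option autoImplicit false

namespace Pool.Agent.Results.MP_6f1c57_nt.ProximityAndDiscriminant

open NumberField MvPolynomial Module
open Run7.h128.BD (ht ht₁ logDisc prox cont LogUniruled ht₁_nonneg exists_genK finII
  valDist_le_prox finrank_pos'' logDisc_nonneg)
open Run7.h128.AU (outside outside_nonneg)
open Run7.h128.BL (valDist_nonneg)
open scoped IntermediateField

theorem result (k : Type) [Field k] [NumberField k] (n m : ℕ) (e : Fin m → ℕ)
    (F : Fin m → MvPolynomial (Fin (n + 1)) k) (hF : ∀ i, (F i).IsHomogeneous (e i))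
    (hprime : (Ideal.span (Set.range F)).IsPrime)
    (T : MvPolynomial (Fin (n + 1)) k) (δ : ℕ) (hδ : 1 ≤ δ) (hT : T.IsHomogeneous δ)
    (hint : ∀ β, IsIntegral ℤ (coeff β T))
    (hnu : ¬ LogUniruled (Ideal.span (Set.range F)) T) (s : ℕ) :
    ∃ H : MvPolynomial (Fin (n + 1)) k, (∃ d, H.IsHomogeneous d) ∧
      H ∉ Ideal.span (Set.range F) ∧
      ∀ (K : Type) [Field K] [NumberField K] [Algebra k K] (S : Finset (FinitePlace K)) (d : ℕ),
        ∃ c : ℝ, 0 < c ∧ ∀ (L : Type) [Field L] [NumberField L] [Algebra k L] [Algebra K L]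
          [IsScalarTower k K L], finrank k L ≤ d →
          -- (1)
          (∀ (lam : Fin s → Fin (n + 1) → L) (u : Fin s → Fin (n + 1) → K) (x : Fin (n + 1) → L),
            (∀ j a, IsIntegral ℤ (lam j a)) →
            (∀ a, x a = ∑ j, lam j a * algebraMap K L (u j a)) →
            (∀ i, aeval x (F i) = 0) → aeval x T ≠ 0 → aeval x H ≠ 0 →
            prox k S δ T x + c * ht k x ≤ δ * ht k x + ∑ j, ∑ a, ht₁ k (lam j a) +
              (outside S fun p : Fin s × Fin (n + 1) => u p.1 p.2) +
              δ * cont k S (fun p : Fin s × Fin (n + 1) => u p.1 p.2) x + 1) ∧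
          -- (2)
          ∃ θ : L, IsIntegral ℤ θ ∧ ℚ⟮θ⟯ = ⊤ ∧
            ∀ (g : Fin s → Fin (n + 1) → ℕ) (u : Fin s → Fin (n + 1) → K) (x : Fin (n + 1) → L),
              (∀ j a, g j a < d) → (∀ a, x a = ∑ j, θ ^ g j a * algebraMap K L (u j a)) →
              (∀ i, aeval x (F i) = 0) → aeval x T ≠ 0 → aeval x H ≠ 0 →
              prox k S δ T x + c * ht k x ≤ δ * ht k x + logDisc k L +
                (outside S fun p : Fin s × Fin (n + 1) => u p.1 p.2) +
                δ * cont k S (fun p : Fin s × Fin (n + 1) => u p.1 p.2) x + 1 := by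
  obtain ⟨H, hH1, hH2, hH3⟩ := finII e F hF hprime T δ hδ hT hnu s
  refine ⟨H, hH1, hH2, fun K _ _ _ S d => ?_⟩
  obtain ⟨C, hC0, hC⟩ := hH3 K S d
  obtain ⟨C', hC0', hC'⟩ := exists_genK k d
  set M : ℝ := s * ((n + 1) * (d * C')) with hM
  have hM0 : 0 ≤ M := by positivity
  set B : ℝ := C * (d + 1) * (1 + M) + 1 with hB
  have hCd : 0 ≤ C * (d + 1) := by positivity
  have hB1 : 1 ≤ B := by
    have : 0 ≤ C * (d + 1) * (1 + M) := by positivity
    linarith
  refine ⟨1 / B, by positivity, fun L _ _ _ _ _ hL => ?_⟩
  have hKL : finrank K L ≤ d := by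
    have h1 := Module.finrank_mul_finrank k K L
    have h2 : 0 < finrank k K := Module.finrank_pos
    have h3 : finrank K L ≤ finrank k K * finrank K L := Nat.le_mul_of_pos_left _ h2
    omega
  -- the bound for the height
  have key : ∀ (lam : Fin s → Fin (n + 1) → L) (u : Fin s → Fin (n + 1) → K)
      (x : Fin (n + 1) → L), (∀ j a, IsIntegral ℤ (lam j a)) →
      (∀ a, x a = ∑ j, lam j a * algebraMap K L (u j a)) →
      (∀ i, aeval x (F i) = 0) → aeval x T ≠ 0 → aeval x H ≠ 0 →
      0 ≤ δ * ht k x - prox k S δ T x +
        δ * cont k S (fun p : Fin s × Fin (n + 1) => u p.1 p.2) x ∧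
      ht k x ≤ C * (d + 1) * (1 + ∑ j, ∑ a, ht₁ k (lam j a) +
        (outside S fun p : Fin s × Fin (n + 1) => u p.1 p.2) +
        (δ * ht k x - prox k S δ T x +
          δ * cont k S (fun p : Fin s × Fin (n + 1) => u p.1 p.2) x)) := by
    intro lam u x hlam hxu h0 hTx hHx
    have hx : x ≠ 0 := by
      intro h
      apply hTx
      rw [h, MvPolynomial.aeval_zero, constantCoeff_eq]
      have h1 : coeff 0 T = 0 := by
        refine hT.coeff_eq_zero ?_
        rw [map_zero]
        omega
      rw [h1, map_zero]
    have h1 := hC L hKL lam u x hxu h0 hTx hHx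
    have h2 := valDist_le_prox S T hT hint lam hlam u x hxu hx hTx
    have h3 := valDist_nonneg S (finrank K L * δ) (fun p : Fin s × Fin (n + 1) => u p.1 p.2)
      (Algebra.norm K (aeval x T))
    set E : ℝ := δ * ht k x - prox k S δ T x +
      δ * cont k S (fun p : Fin s × Fin (n + 1) => u p.1 p.2) x with hE
    have hp := finrank_pos'' k L
    have hE0 : 0 ≤ E := by
      by_contra h
      push Not at h
      have := mul_neg_of_pos_of_neg hp h
      linarith
    refine ⟨hE0, h1.trans ?_⟩
    have h4 : (finrank k L : ℝ) ≤ d := by exact_mod_cast hL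
    have h5 : (finrank k L : ℝ) * E ≤ d * E := mul_le_mul_of_nonneg_right h4 hE0
    have h6 : 0 ≤ ∑ j, ∑ a, ht₁ k (lam j a) :=
      Finset.sum_nonneg fun j _ => Finset.sum_nonneg fun a _ => ht₁_nonneg k _
    have h7 := outside_nonneg S fun p : Fin s × Fin (n + 1) => u p.1 p.2
    have hd0 : (0 : ℝ) ≤ d := Nat.cast_nonneg d
    rw [mul_assoc]
    refine mul_le_mul_of_nonneg_left ?_ hC0
    nlinarith [mul_nonneg hd0 h6, mul_nonneg hd0 h7]
  refine ⟨fun lam u x hlam hxu h0 hTx hHx => ?_, ?_⟩
  · obtain ⟨h1, h2⟩ := key lam u x hlam hxu h0 hTx hHx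
    set E : ℝ := δ * ht k x - prox k S δ T x +
      δ * cont k S (fun p : Fin s × Fin (n + 1) => u p.1 p.2) x with hE
    have h6 : 0 ≤ ∑ j, ∑ a, ht₁ k (lam j a) :=
      Finset.sum_nonneg fun j _ => Finset.sum_nonneg fun a _ => ht₁_nonneg k _
    have h7 := outside_nonneg S fun p : Fin s × Fin (n + 1) => u p.1 p.2
    have h8 : C * (d + 1) ≤ B := by
      have := mul_nonneg hCd hM0
      rw [hB]
      linarith
    have h9 : ht k x ≤ B * (1 + ∑ j, ∑ a, ht₁ k (lam j a) +
        (outside S fun p : Fin s × Fin (n + 1) => u p.1 p.2) + E) :=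
      h2.trans (mul_le_mul_of_nonneg_right h8 (by linarith))
    have h10 : 1 / B * ht k x ≤ 1 + ∑ j, ∑ a, ht₁ k (lam j a) +
        (outside S fun p : Fin s × Fin (n + 1) => u p.1 p.2) + E := by
      rw [one_div, inv_mul_le_iff₀ (by linarith)]
      exact h9
    linarith
  · obtain ⟨θ, h1, h2, h3⟩ := hC' L hL
    refine ⟨θ, h1, h2, fun g u x hg hxu h0 hTx hHx => ?_⟩
    obtain ⟨h4, h5⟩ := key (fun j a => θ ^ g j a) u x (fun j a => h1.pow _) hxu h0 hTx hHx
    set E : ℝ := δ * ht k x - prox k S δ T x +
      δ * cont k S (fun p : Fin s × Fin (n + 1) => u p.1 p.2) x with hE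
    have hd := logDisc_nonneg k L
    have hθ : ∀ i, i < d → ht₁ k (θ ^ i) ≤ d * (C' * (1 + logDisc k L)) := by
      intro i hi
      have h5 : ht₁ k (θ ^ i) = i * ht₁ k θ := by
        unfold ht₁
        rw [Height.logHeight₁_pow]
        ring
      rw [h5]
      have h6 : (i : ℝ) ≤ d := by exact_mod_cast hi.le
      exact mul_le_mul h6 h3 (ht₁_nonneg k θ) (Nat.cast_nonneg d)
    have h6 : ∑ j : Fin s, ∑ a : Fin (n + 1), ht₁ k (θ ^ g j a) ≤ M * (1 + logDisc k L) := by
      refine (Finset.sum_le_sum fun j _ => Finset.sum_le_sum fun a _ => hθ _ (hg j a)).trans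
        (le_of_eq ?_)
      rw [Finset.sum_const, Finset.sum_const, Finset.card_univ, Finset.card_univ,
        Fintype.card_fin, Fintype.card_fin, nsmul_eq_mul, nsmul_eq_mul, hM]
      push_cast
      ring
    have h7 := outside_nonneg S fun p : Fin s × Fin (n + 1) => u p.1 p.2
    have h8 : ht k x ≤ B * (1 + logDisc k L +
        (outside S fun p : Fin s × Fin (n + 1) => u p.1 p.2) + E) := by
      refine h5.trans ?_
      have h9 : 1 + ∑ j, ∑ a, ht₁ k (θ ^ g j a) +
          (outside S fun p : Fin s × Fin (n + 1) => u p.1 p.2) + E ≤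
          (1 + M) * (1 + logDisc k L +
            (outside S fun p : Fin s × Fin (n + 1) => u p.1 p.2) + E) := by
        nlinarith [mul_nonneg hM0 h7, mul_nonneg hM0 h4]
      refine (mul_le_mul_of_nonneg_left h9 hCd).trans ?_
      rw [← mul_assoc]
      refine mul_le_mul_of_nonneg_right ?_ (by linarith)
      rw [hB]
      linarith
    have h10 : 1 / B * ht k x ≤ 1 + logDisc k L +
        (outside S fun p : Fin s × Fin (n + 1) => u p.1 p.2) + E := by
      rw [one_div, inv_mul_le_iff₀ (by linarith)]
      exact h8
    linarith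

end Pool.Agent.Results.MP_6f1c57_nt.ProximityAndDiscriminant
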